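import Pool.Agent.H219.WhP.LinInf

/-!
# The trace `K₁(K[Γ]) → HC₁(K[Γ])` is concentrated on elements of finite order
-/

set_option autoImplicit false

namespace Pool.Agent.Results.MP_6374fb_al.CyclicTraceTorsion

open H219.WhC H219.WhP

universe u v w

/-- an element which is conjugate to its `p ^ j`-th power is infinitely `p`-divisible -/
lemma root_of_conj {H : Type*} [Group H] {p j : ℕ} {g c : H}
    (h : c * g * c⁻¹ = g ^ p ^ j) (m : ℕ) : (c⁻¹ ^ m * g * (c⁻¹ ^ m)⁻¹) ^ p ^ (j * m) = g := by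
  induction m with
  | zero => simp
  | succ m ih =>
    have h1 : g = c⁻¹ * g ^ p ^ j * c := by
      rw [← h]
      group
    have h2 : (c⁻¹ ^ (m + 1) * g * (c⁻¹ ^ (m + 1))⁻¹) ^ p ^ j =
        c⁻¹ ^ m * g * (c⁻¹ ^ m)⁻¹ := by
      rw [conj_pow]
      conv_rhs => rw [h1]
      rw [pow_succ]
      group
    calc (c⁻¹ ^ (m + 1) * g * (c⁻¹ ^ (m + 1))⁻¹) ^ p ^ (j * (m + 1))
        = ((c⁻¹ ^ (m + 1) * g * (c⁻¹ ^ (m + 1))⁻¹) ^ p ^ j) ^ p ^ (j * m) := by
          rw [← pow_mul, ← pow_add, show j * (m + 1) = j + j * m by ring]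
      _ = g := by rw [h2, ih]

/-- Let `K` be a field of characteristic `0` and `Γ` a group, possibly with torsion, such that
either (a) for every finitely generated subgroup `H` and every `g` of infinite order in `H` there
are infinitely many primes `p` such that `g` is not conjugate in `H` to `g ^ (p ^ j)` for
`j ≥ 1`; or (b) `Γ` is linear over some field of characteristic `0`. Then every cyclic
`1`-cocycle `f` on `K[Γ]` whose values on pairs of group elements lie in a finitely generated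
subring of `K`, and which vanishes on the pairs whose product has finite order, vanishes on every
invertible matrix over `K[Γ]`. -/
theorem result (K : Type u) [Field K] [CharZero K] (Γ : Type v) [Group Γ]
    (hΓ : (∀ H : Subgroup Γ, H.FG → ∀ g ∈ H, (∀ m : ℕ, 0 < m → g ^ m ≠ 1) →
        {p : ℕ | p.Prime ∧ ∀ j, 1 ≤ j → ∀ c ∈ H, c * g * c⁻¹ ≠ g ^ p ^ j}.Infinite) ∨
      (∃ (L : Type w) (_ : Field L) (_ : CharZero L) (N : ℕ) (φ : Γ →* GL (Fin N) L),
          Function.Injective φ))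
    (n : ℕ) (A : (Matrix (Fin n) (Fin n) (MonoidAlgebra K Γ))ˣ)
    (s : Finset K) (f : Γ → Γ → K) (hs : ∀ x y, f x y ∈ Algebra.adjoin ℤ (s : Set K))
    (hf : ∀ x y z : Γ, f (x * y) z - f x (y * z) + f (z * x) y = 0) (hf1 : ∀ g : Γ, f 1 g = 0)
    (hfin : ∀ (g h : Γ) (m : ℕ), 0 < m → (g * h) ^ m = 1 → f g h = 0) :
    (∑ i, ∑ j, ((A⁻¹).val i j).coeff.sum fun g b =>
        (A.val j i).coeff.sum fun h a => b * a * f g h) = 0 := by
  have hG : ∀ H : Subgroup Γ, H.FG → ∀ g ∈ H, (∀ m : ℕ, 0 < m → g ^ m ≠ 1) →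
        {p : ℕ | p.Prime ∧ ∀ j, 1 ≤ j → ∀ c ∈ H, c * g * c⁻¹ ≠ g ^ p ^ j}.Infinite := by
    rcases hΓ with h | ⟨L, iL, iC, N, φ, hφ⟩
    · exact h
    · intro H hH g hg hg1
      have : Group.FG H := (Group.fg_iff_subgroup_fg H).2 hH
      have hbad := finite_bad_inf (H := H) (φ.comp H.subtype) (hφ.comp H.subtype_injective)
      refine (Nat.infinite_setOfPred_prime.sdiff hbad).mono ?_
      rintro p ⟨hp, hgood⟩
      have hgood' : ∀ g : H, (∀ k : ℕ, 0 < k → g ^ k ≠ 1) →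
          ∃ k : ℕ, ∀ x : H, x ^ (p ^ k) ≠ g := by
        by_contra hcon
        exact hgood ⟨hp, hcon⟩
      refine ⟨hp, ?_⟩
      intro j hj c hc heq
      obtain ⟨k, hk⟩ := hgood' ⟨g, hg⟩ (fun m hm h0 => hg1 m hm (by
        simpa using congrArg Subtype.val h0))
      have h1 : (⟨c, hc⟩ : H) * ⟨g, hg⟩ * (⟨c, hc⟩ : H)⁻¹ = (⟨g, hg⟩ : H) ^ p ^ j := by
        apply Subtype.ext
        simpa using heq
      have h2 := root_of_conj h1 k
      obtain ⟨l, hl⟩ := Nat.exists_eq_add_of_le (Nat.le_mul_of_pos_left k hj : k ≤ j * k)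
      rw [hl, add_comm, pow_add, pow_mul] at h2
      exact hk _ h2
  exact vanish_inf A s f hs hf hf1 hfin (hG _ (grpF_fg A))

end Pool.Agent.Results.MP_6374fb_al.CyclicTraceTorsion
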