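import Pool.Agent.H219.WhH.CharP

/-!
# The Dennis trace `K₁(K[Γ]) → HH₁(K[Γ])` over fields of odd characteristic
-/

set_option autoImplicit false

namespace Pool.Agent.Results.MP_6374fb_al.DennisTraceCharP

open H219.WhC H219.WhH

universe u v w

/-- Let `K` be a field of odd characteristic `p` and `Γ` a group such that in every finitely
generated subgroup `H` of `Γ` the `p`-th roots are unique and no `g ≠ 1` is a `p ^ k`-th power in
`H` for all `k` (for example a locally residually torsion-free nilpotent group). Then for every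
invertible matrix `A` over `K[Γ]` there is `γ ∈ Γ` such that every Hochschild `1`-cocycle `f` on
`K[Γ]` with values in a vector space takes the same value on the Dennis trace of `A` and on that
of `γ`. -/
theorem result (p : ℕ) [Fact p.Prime] (hp : p ≠ 2) (K : Type u) [Field K] [CharP K p]
    (Γ : Type v) [Group Γ]
    (hΓ : ∀ H : Subgroup Γ, H.FG → (∀ x y : H, x ^ p = y ^ p → x = y) ∧
      ∀ g : H, g ≠ 1 → ∃ k : ℕ, ∀ x : H, x ^ p ^ k ≠ g)
    (n : ℕ) (A : (Matrix (Fin n) (Fin n) (MonoidAlgebra K Γ))ˣ) :
    ∃ γ : Γ, ∀ (M : Type w) [AddCommGroup M] [Module K M] (f : Γ → Γ → M),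
      (∀ x y z : Γ, f (x * y) z - f x (y * z) + f (z * x) y = 0) →
      (∑ i, ∑ j, ((A⁻¹).val i j).coeff.sum fun g b =>
          (A.val j i).coeff.sum fun h a => (b * a) • f g h) = f γ⁻¹ γ :=
  charp_module hp A hΓ

end Pool.Agent.Results.MP_6374fb_al.DennisTraceCharP
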